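import Pool.Agent.Lib.helper7.Perron

namespace Pool.Agent.Results.MP_1a9240_co.Cex

open Classical Matrix Pool.Agent.Lib.helper7.Perron

/-- the Ricci matrix, indexed by edges -/
noncomputable def ricci {V : Type} [Fintype V] (G : SimpleGraph V) :
    Matrix G.edgeSet G.edgeSet ℝ := fun e e' =>
  (if e = e' then -1 else 1) *
    ∑ x : V, if x ∈ e.1 ∧ x ∈ e'.1 then 1 / ((G.neighborSet x).ncard : ℝ) else 0

/-- attach a new leaf at v -/
def attach {V : Type} (G : SimpleGraph V) (v : V) : SimpleGraph (Option V) :=
  SimpleGraph.fromRel fun a b =>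
    (∃ x y, a = some x ∧ b = some y ∧ G.Adj x y) ∨ (a = none ∧ b = some v)

section
variable {V : Type} [Fintype V] (G : SimpleGraph V)

lemma herm : (ricci G).IsHermitian := by
  ext e e'
  simp only [conjTranspose_apply, star_trivial, ricci, eq_comm (a := e'), and_comm]

lemma offd (e e' : G.edgeSet) (h : e ≠ e') : 0 ≤ ricci G e e' := by
  simp only [ricci, if_neg h, one_mul]
  refine Finset.sum_nonneg fun x _ => ?_
  split_ifs <;> positivity

noncomputable def nsum (g : V → ℝ) (z : V) : ℝ := ∑ y, if G.Adj z y then g y else 0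

lemma deg_eq (z : V) : ((G.neighborSet z).ncard : ℝ) = nsum G (fun _ => 1) z := by
  rw [nsum, Finset.sum_boole, ← Set.ncard_coe_finset]
  congr 2
  ext y; simp

lemma inc (X : Sym2 V → ℝ) (z : V) :
    ∑ e : G.edgeSet, (if z ∈ e.1 then X e.1 else 0) = nsum G (fun y => X s(z, y)) z := by
  rw [nsum, ← Finset.sum_filter, ← Finset.sum_filter]
  symm
  refine Finset.sum_bij (fun y hy => ⟨s(z, y), (Finset.mem_filter.1 hy).2⟩) ?_ ?_ ?_ ?_
  · intro y hy; simp
  · intro y _ y' _ h
    exact Sym2.congr_right.1 (congrArg Subtype.val h)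
  · rintro ⟨e, he⟩ h
    obtain ⟨y, rfl⟩ := Sym2.mem_iff_exists.1 (Finset.mem_filter.1 h).2
    exact ⟨y, Finset.mem_filter.2 ⟨Finset.mem_univ _, he⟩, rfl⟩
  · intro y hy; rfl

lemma mulVec_eq (X : Sym2 V → ℝ) (u w : V) (h : G.Adj u w) :
    (ricci G *ᵥ fun e => X e.1) ⟨s(u, w), h⟩ =
      (nsum G (fun y => X s(u, y)) u - 2 * X s(u, w)) / nsum G (fun _ => 1) u +
      (nsum G (fun y => X s(w, y)) w - 2 * X s(u, w)) / nsum G (fun _ => 1) w := by
  have key : ∀ x : V, ∑ e' : G.edgeSet, (if (⟨s(u, w), h⟩ : G.edgeSet) = e' then (-1 : ℝ) else 1) *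
      (if x ∈ s(u, w) ∧ x ∈ e'.1 then 1 / ((G.neighborSet x).ncard : ℝ) else 0) * X e'.1 =
      if x ∈ s(u, w) then
        (nsum G (fun y => X s(x, y)) x - 2 * X s(u, w)) / nsum G (fun _ => 1) x else 0 := by
    intro x
    by_cases hx : x ∈ s(u, w)
    · rw [if_pos hx, ← inc, ← deg_eq]
      have : ∀ e' : G.edgeSet, (if (⟨s(u, w), h⟩ : G.edgeSet) = e' then (-1 : ℝ) else 1) *
          (if x ∈ s(u, w) ∧ x ∈ e'.1 then 1 / ((G.neighborSet x).ncard : ℝ) else 0) * X e'.1 =
          ((if x ∈ e'.1 then X e'.1 else 0) -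
            if (⟨s(u, w), h⟩ : G.edgeSet) = e' then 2 * X s(u, w) else 0) /
              ((G.neighborSet x).ncard : ℝ) := by
        intro e'
        by_cases e : (⟨s(u, w), h⟩ : G.edgeSet) = e'
        · subst e; simp only [hx, if_true, and_self]; ring
        · simp only [hx, e, if_false, true_and]; split_ifs <;> ring
      simp only [this]
      rw [← Finset.sum_div, Finset.sum_sub_distrib, Finset.sum_ite_eq]
      simp
    · simp [hx]
  simp only [Matrix.mulVec, dotProduct, ricci, Finset.mul_sum, Finset.sum_mul]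
  rw [Finset.sum_comm]
  refine (Finset.sum_congr rfl fun x _ => ?_).trans
    ((Finset.sum_congr rfl fun x _ => key x).trans ?_)
  · refine Finset.sum_congr rfl fun e _ => ?_
    congr
  simp only [Sym2.mem_iff]
  rw [← Finset.sum_filter, show Finset.univ.filter (fun x => x = u ∨ x = w) = {u, w} by
    ext x; simp, Finset.sum_pair h.ne]

lemma nsum_some (v z : V) (g : Option V → ℝ) :
    nsum (attach G v) g (some z) = nsum G (fun y => g (some y)) z + if z = v then g none else 0 := by
  rw [nsum, nsum, Fintype.sum_option, add_comm]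
  congr 1
  · refine Finset.sum_congr rfl fun y _ => if_congr ?_ rfl rfl
    simp only [attach, SimpleGraph.fromRel_adj]
    constructor
    · rintro ⟨-, (⟨a, b, h1, h2, h3⟩ | h) | (⟨a, b, h1, h2, h3⟩ | h)⟩
      · cases h1; cases h2; exact h3
      · simp at h
      · cases h1; cases h2; exact h3.symm
      · simp at h
    · intro h; exact ⟨by simpa using h.ne, Or.inl (Or.inl ⟨z, y, rfl, rfl, h⟩)⟩
  · refine if_congr ?_ rfl rfl
    simp [attach]

lemma nsum_none (v : V) (g : Option V → ℝ) : nsum (attach G v) g none = g (some v) := by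
  rw [nsum, Fintype.sum_option]
  simp [attach]

end

def T : SimpleGraph (Fin 13108) := SimpleGraph.fromRel fun i j => (i.val + 12) / 16 = j.val

lemma T_adj (i j : Fin 13108) : T.Adj i j ↔
    i.val ≠ j.val ∧ ((i.val + 12) / 16 = j.val ∨ (j.val + 12) / 16 = i.val) := by
  simp [T, Fin.ext_iff]

lemma T_tree : T.IsTree := by
  refine ⟨?_, acyclic_of_parent T (fun i => ⟨(i.val + 12) / 16, by omega⟩) ?_⟩
  · have : ∀ n (i : Fin 13108), i.val = n → T.Reachable i 0 := by
      intro n
      induction n using Nat.strong_induction_on with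
      | _ n ih =>
        intro i hi
        by_cases h0 : i.val = 0
        · rw [show i = 0 from Fin.ext h0]
        · refine SimpleGraph.Reachable.trans (SimpleGraph.Adj.reachable ?_)
            (ih ((i.val + 12) / 16) (by omega) ⟨(i.val + 12) / 16, by omega⟩ rfl)
          rw [T_adj]; exact ⟨by show i.val ≠ (i.val + 12) / 16; omega, Or.inl rfl⟩
    exact ⟨fun u w => (this _ u rfl).trans (this _ w rfl).symm⟩
  · intro u w h hle
    rw [T_adj] at h
    have : w.val ≤ u.val := hle
    apply Fin.ext
    simp only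
    omega

lemma nsum_T (g : ℕ → ℝ) (c : ℝ) (z : Fin 13108)
    (hc : ∀ i, 1 ≤ i → i < 13108 → (i + 12) / 16 = z.val → g i = c) :
    nsum T (fun y => g y.val) z = (if z.val = 0 then 0 else g ((z.val + 12) / 16)) +
      (if z.val = 0 then 3 else if z.val ≤ 819 then 16 else 0) * c := by
  have hz := z.2
  rw [nsum]
  simp only [T_adj]
  rw [Fin.sum_univ_eq_sum_range (fun y => if z.val ≠ y ∧ ((z.val + 12) / 16 = y ∨
    (y + 12) / 16 = z.val) then g y else 0), ← Finset.sum_filter]
  have hI : ∀ a b : ℕ, (∀ i, a ≤ i → i < b → g i = c) → ∑ i ∈ Finset.Ico a b, g i = (b - a : ℕ) * c := by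
    intro a b h
    rw [Finset.sum_congr rfl fun i hi => h i (Finset.mem_Ico.1 hi).1 (Finset.mem_Ico.1 hi).2]
    simp
  by_cases h0 : z.val = 0
  · rw [show Finset.filter (fun y => z.val ≠ y ∧ ((z.val + 12) / 16 = y ∨ (y + 12) / 16 = z.val))
      (Finset.range 13108) = Finset.Ico 1 4 by
        ext y; simp only [Finset.mem_filter, Finset.mem_range, Finset.mem_Ico]; omega,
      hI 1 4 fun i h1 h2 => hc i (by omega) (by omega) (by omega)]
    simp [h0]
  by_cases h1 : z.val ≤ 819
  · rw [show Finset.filter (fun y => z.val ≠ y ∧ ((z.val + 12) / 16 = y ∨ (y + 12) / 16 = z.val))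
      (Finset.range 13108) = insert ((z.val + 12) / 16) (Finset.Ico (16 * z.val - 12) (16 * z.val + 4)) by
        ext y
        simp only [Finset.mem_filter, Finset.mem_range, Finset.mem_Ico, Finset.mem_insert]; omega,
      Finset.sum_insert (by simp only [Finset.mem_Ico]; omega),
      hI _ _ fun i h1 h2 => hc i (by omega) (by omega) (by omega),
      show 16 * z.val + 4 - (16 * z.val - 12) = 16 by omega]
    simp [h0, h1]
  · rw [show Finset.filter (fun y => z.val ≠ y ∧ ((z.val + 12) / 16 = y ∨ (y + 12) / 16 = z.val))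
      (Finset.range 13108) = {(z.val + 12) / 16} by
        ext y
        simp only [Finset.mem_filter, Finset.mem_range, Finset.mem_singleton]; omega]
    simp [h0, h1]

noncomputable def F (a b c d : ℝ) (i : ℕ) : ℝ :=
  if i ≤ 3 then a else if i ≤ 51 then b else if i ≤ 819 then c else d

lemma deg_T (z : Fin 13108) : nsum T (fun _ => 1) z =
    if z.val = 0 then 3 else if z.val ≤ 819 then 17 else 1 := by
  rw [nsum_T (fun _ => 1) 1 z fun _ _ _ _ => rfl]
  split_ifs <;> norm_num

lemma sum_T (a b c d : ℝ) (z : Fin 13108) : nsum T (fun y => F a b c d (max z.val y.val)) z =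
    if z.val = 0 then 3 * a else if z.val ≤ 3 then a + 16 * b else if z.val ≤ 51 then b + 16 * c
    else if z.val ≤ 819 then c + 16 * d else d := by
  have hz := z.2
  rw [nsum_T (fun y => F a b c d (max z.val y))
    (if z.val = 0 then a else if z.val ≤ 3 then b else if z.val ≤ 51 then c else d) z]
  · rw [max_eq_left (by omega : (z.val + 12) / 16 ≤ z.val)]
    unfold F
    split_ifs <;> first | omega | ring
  · intro i h1 h2 h3
    rw [max_eq_right (by omega)]
    unfold F
    split_ifs <;> first | rfl | omega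

noncomputable def X (a b c d : ℝ) : Sym2 (Fin 13108) → ℝ :=
  Sym2.lift ⟨fun u w => F a b c d (max u.val w.val), fun u w => by simp only [max_comm]⟩

noncomputable def Y (a b c d e : ℝ) : Sym2 (Option (Fin 13108)) → ℝ :=
  Sym2.lift ⟨fun u w => match u, w with
    | some u, some w => F a b c d (max u.val w.val)
    | _, _ => e, fun u w => by cases u <;> cases w <;> simp only [max_comm]⟩

lemma edge_T (e : T.edgeSet) : ∃ u w : Fin 13108, ∃ h : T.Adj u w, e = ⟨s(u, w), h⟩ ∧
    1 ≤ u.val ∧ (u.val + 12) / 16 = w.val := by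
  obtain ⟨e, he⟩ := e
  induction e using Sym2.ind with
  | _ u w =>
    have h : T.Adj u w := he
    have h' := (T_adj u w).1 h
    rcases h'.2 with h1 | h1
    · exact ⟨u, w, h, rfl, by omega, h1⟩
    · exact ⟨w, u, h.symm, Subtype.ext Sym2.eq_swap, by omega, h1⟩

lemma F_pos {a b c d : ℝ} (ha : 0 < a) (hb : 0 < b) (hc : 0 < c) (hd : 0 < d) (i : ℕ) :
    0 < F a b c d i := by
  unfold F; split_ifs <;> assumption

theorem result : ∃ (N : ℕ) (T : SimpleGraph (Fin N)) (v : Fin N), T.IsTree ∧
    (T.neighborSet v).ncard = 3 ∧ ∃ a b : ℝ, IsGreatest (spectrum ℝ (ricci T)) a ∧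
      IsGreatest (spectrum ℝ (ricci (attach T v))) b ∧ b < a := by
  have e01 : T.Adj 1 0 := by rw [T_adj]; simp
  have : Nonempty T.edgeSet := ⟨⟨s(1, 0), e01⟩⟩
  have : Nonempty (attach T 0).edgeSet := ⟨⟨s(none, some 0), by simp [attach]⟩⟩
  obtain ⟨a, ha⟩ := exists_isGreatest (herm T)
  obtain ⟨b, hb⟩ := exists_isGreatest (herm (attach T 0))
  refine ⟨13108, T, 0, T_tree, ?_, a, b, ha, hb, ?_⟩
  · have := deg_eq T 0
    rw [deg_T] at this
    exact_mod_cast this
  have h1 : ∃ l ∈ spectrum ℝ (ricci T), (1.05805 : ℝ) ≤ l := by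
    have hpos : ∀ e : T.edgeSet, 0 < X 1 0.832567 0.197039 0.0093883 e.1 := by
      intro e
      obtain ⟨u, w, h, rfl, -⟩ := edge_T e
      exact F_pos (by norm_num) (by norm_num) (by norm_num) (by norm_num) _
    refine exists_ge (herm T) (x := fun e => X 1 0.832567 0.197039 0.0093883 e.1)
      (fun h => (hpos ⟨s(1, 0), e01⟩).ne' (congrFun h _)) ?_
    rw [dotProduct, dotProduct, Finset.mul_sum]
    refine Finset.sum_le_sum fun e _ => ?_
    rw [mul_left_comm]
    refine mul_le_mul_of_nonneg_left ?_ (hpos e).le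
    obtain ⟨u, w, h, rfl, h1, h2⟩ := edge_T e
    have hu := u.2
    rw [mulVec_eq T _ u w h]
    simp only [X, Sym2.lift_mk, deg_T, sum_T]
    rw [max_eq_left (by omega : w.val ≤ u.val)]
    unfold F
    split_ifs <;> first | omega | norm_num
  have h2 : b < 1.05805 := by
    refine lt_of_super (offd _) (x := fun e => Y 1 0.834693 0.197619 0.0094166 0.324955 e.1)
      ?_ ?_ hb.1
    · rintro ⟨e, he⟩
      induction e using Sym2.ind with
      | _ u w =>
        cases u <;> cases w <;> simp only [Y, Sym2.lift_mk] <;> first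
          | exact F_pos (by norm_num) (by norm_num) (by norm_num) (by norm_num) _ | norm_num
    · have leaf : ∀ h : (attach T 0).Adj none (some 0), (ricci (attach T 0) *ᵥ
          fun e => Y 1 0.834693 0.197619 0.0094166 0.324955 e.1) ⟨s(none, some 0), h⟩ <
            1.05805 * 0.324955 := by
        intro h
        rw [mulVec_eq _ _ _ _ h]
        simp only [nsum_some, nsum_none, Y, Sym2.lift_mk, deg_T, sum_T]
        norm_num
      have inner : ∀ u w : Fin 13108, ∀ h : (attach T 0).Adj (some u) (some w), 1 ≤ u.val →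
          (u.val + 12) / 16 = w.val → (ricci (attach T 0) *ᵥ
          fun e => Y 1 0.834693 0.197619 0.0094166 0.324955 e.1) ⟨s(some u, some w), h⟩ <
            1.05805 * Y 1 0.834693 0.197619 0.0094166 0.324955 s(some u, some w) := by
        intro u w h h1 h2
        have hu := u.2
        rw [mulVec_eq _ _ _ _ h]
        simp only [nsum_some, Y, Sym2.lift_mk, deg_T, sum_T, Fin.ext_iff, Fin.val_zero]
        rw [max_eq_left (by omega : w.val ≤ u.val)]
        unfold F
        split_ifs <;> first | omega | norm_num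
      rintro ⟨e, he⟩
      induction e using Sym2.ind with
      | _ u w =>
        have h : (attach T 0).Adj u w := he
        match u, w, h, he with
        | none, none, h, _ => exact absurd rfl h.ne
        | none, some w, h, he =>
          have : w = 0 := by simpa [attach] using h
          subst this
          exact leaf h
        | some w, none, h, he =>
          have : w = 0 := by simpa [attach] using h
          subst this
          have := leaf h.symm
          simp only [Sym2.eq_swap (a := none)] at this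
          exact this
        | some u, some w, h, he =>
          have h' : T.Adj u w := by
            simp only [attach, SimpleGraph.fromRel_adj] at h
            rcases h with ⟨-, (⟨a, b, h1, h2, h3⟩ | h) | (⟨a, b, h1, h2, h3⟩ | h)⟩
            · cases h1; cases h2; exact h3
            · simp at h
            · cases h1; cases h2; exact h3.symm
            · simp at h
          have h'' := (T_adj u w).1 h'
          rcases h''.2 with h1 | h1
          · exact inner u w h (by omega) h1
          · have := inner w u h.symm (by omega) h1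
            simp only [Sym2.eq_swap (a := some w)] at this
            exact this
  obtain ⟨l, hl, hl'⟩ := h1
  exact h2.trans_le (hl'.trans (ha.2 hl))

end Pool.Agent.Results.MP_1a9240_co.Cex
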